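import Pool.Agent.TH100.LV.Stab
import Pool.Agent.W315.LB.Final
import Pool.Agent.W209.LB.Conn3
import Pool.Agent.W427.LB.Bicrit

/-!
# Lovász's Hilbert basis conjecture: assembly
-/

set_option autoImplicit false

namespace Pool.Agent.TH100.LV

open Finset H76TW H840R6 H76FC H76TX H76TY Pool.Agent.W315.LB

/-- a stable set `B` with `|W| = 2 |B| + 2` and two colours (`R` and not `R`) of the edges outside `B`
such that for each of the two colours the graph of the edges which meet `B` or have this colour has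
only even neighbour permutations -/
def TwoColour {W : Type} [Fintype W] (H : SimpleGraph W) : Prop :=
  ∃ (B : Finset W) (R : W → W → Prop), Fintype.card W = 2 * B.card + 2 ∧
    (∀ x ∈ B, ∀ y ∈ B, ¬ H.Adj x y) ∧ (∀ x y, R x y → R y x) ∧
    EvenPerms (fun x y => H.Adj x y ∧ (x ∈ B ∨ y ∈ B ∨ R x y)) ∧
    EvenPerms (fun x y => H.Adj x y ∧ (x ∈ B ∨ y ∈ B ∨ ¬ R x y))

/-- a stable set `B` and two colours (`R` and not `R`) of the edges outside `B` such that any two
edges of the same colour meet -/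
def TwoMeeting {W : Type} (H : SimpleGraph W) : Prop :=
  ∃ (B : Set W) (R : W → W → Prop), (∀ x ∈ B, ∀ y ∈ B, ¬ H.Adj x y) ∧ (∀ x y, R x y → R y x) ∧
    ∀ a b c d, a ∉ B → b ∉ B → c ∉ B → d ∉ B → H.Adj a b → H.Adj c d → (R a b ↔ R c d) →
      a = c ∨ a = d ∨ b = c ∨ b = d

theorem evenPerms_mono {W : Type} {adj adj' : W → W → Prop} (h : ∀ x y, adj x y → adj' x y)
    (hE : EvenPerms adj') : EvenPerms adj :=
  fun σ hσ v k hk => hE σ (fun w => h _ _ (hσ w)) v k hk

section

variable {V : Type} [Fintype V] [DecidableEq V]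

theorem col_meeting {r : ℕ} {p : V → V → ℕ} (hp : RG r p univ) (H : SimpleGraph V)
    (hH : ∀ u v, p u v ≠ 0 → H.Adj u v) (h : TwoMeeting H) : Col r p := by
  classical
  obtain ⟨B', R, hB', hR, hint⟩ := h
  rcases Nat.eq_zero_or_pos r with rfl | hr
  · exact H840R6.col_zero hp
  set B : Finset V := univ.filter (fun x => x ∈ B') with hBdef
  have hmB : ∀ x, x ∈ B ↔ x ∈ B' := fun x => by rw [hBdef, mem_filter]; simp
  have hB : ∀ x ∈ B, ∀ y ∈ B, ¬ H.Adj x y := fun x hx y hy =>
    hB' x ((hmB x).1 hx) y ((hmB y).1 hy)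
  set A := Bᶜ with hA
  have hd : Disjoint A B := disjoint_compl_left
  have hall : ∀ x, x ∈ A ∨ x ∈ B := by
    intro x
    by_cases h : x ∈ B
    · exact Or.inr h
    · exact Or.inl (mem_compl.2 h)
  have hU : (univ : Finset V) = A ∪ B := by
    ext x
    simpa using hall x
  have hpB : ∀ x ∈ B, ∀ y ∈ B, p x y = 0 := by
    intro x hx y hy
    by_contra h
    exact hB x hx y hy (hH x y h)
  have hAB : ∀ x, x ∈ A → x ∉ B' := fun x hx hx' => mem_compl.1 hx ((hmB x).2 hx')
  have heven : Even (Fintype.card V) := by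
    by_contra hodd
    rw [Nat.not_even_iff_odd] at hodd
    have h1 := hp.odd univ (subset_univ _) (by rw [card_univ]; exact hodd)
    have h2 : r = 0 := by
      unfold H76FC.cut at h1
      simpa using h1
    omega
  have hcc : A.card + B.card = Fintype.card V := by
    have := card_add_card_compl B
    rw [hA]
    omega
  have hR' : ∀ x y, R x y ↔ R y x := fun x y => ⟨hR x y, hR y x⟩
  set q1 : V → V → ℕ := fun x y => if R x y then p x y else 0 with hq1
  set q2 : V → V → ℕ := fun x y => if R x y then 0 else p x y with hq2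
  have t1 : ∀ x y, q1 x y = q1 y x := fun x y => by
    simp only [hq1]; rw [hp.symm x y]; exact if_congr (hR' x y) rfl rfl
  have t2 : ∀ x y, q2 x y = q2 y x := fun x y => by
    simp only [hq2]; rw [hp.symm x y]; exact if_congr (hR' x y) rfl rfl
  have hq : ∀ x y, p x y = q1 x y + q2 x y := fun x y => by
    by_cases h : R x y <;> simp [hq1, hq2, h]
  have e1 : ∀ x y, q1 x y ≠ 0 → p x y ≠ 0 ∧ R x y := by
    intro x y h
    simp only [hq1] at h
    split_ifs at h with h1
    · exact ⟨h, h1⟩
    · exact absurd rfl h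
  have e2 : ∀ x y, q2 x y ≠ 0 → p x y ≠ 0 ∧ ¬ R x y := by
    intro x y h
    simp only [hq2] at h
    split_ifs at h with h1
    · exact absurd rfl h
    · exact ⟨h, h1⟩
  have assoc : ∀ {x y z w : V}, (x = z ∨ x = w ∨ y = z ∨ y = w) →
      (x = z ∨ x = w) ∨ (y = z ∨ y = w) := by
    intro x y z w h
    tauto
  have i1 : Inters q1 A := by
    intro x hx y hy z hz w hw h1 h2
    have h3 := e1 x y h1
    have h4 := e1 z w h2
    exact assoc (hint x y z w (hAB x hx) (hAB y hy) (hAB z hz) (hAB w hw) (hH _ _ h3.1)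
      (hH _ _ h4.1) ⟨fun _ => h4.2, fun _ => h3.2⟩)
  have i2 : Inters q2 A := by
    intro x hx y hy z hz w hw h1 h2
    have h3 := e2 x y h1
    have h4 := e2 z w h2
    exact assoc (hint x y z w (hAB x hx) (hAB y hy) (hAB z hz) (hAB w hw) (hH _ _ h3.1)
      (hH _ _ h4.1) ⟨fun h => absurd h h3.2, fun h => absurd h h4.2⟩)
  have hle1 : inn q1 A ≤ 2 * r := inn_le hp t1 (fun x y => by have := hq x y; omega) i1
  have hle2 : inn q2 A ≤ 2 * r := inn_le hp t2 (fun x y => by have := hq x y; omega) i2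
  have hinn : inn p A = inn q1 A + inn q2 A := by
    unfold inn
    rw [← sum_add_distrib]
    refine sum_congr rfl fun x _ => ?_
    rw [← sum_add_distrib]
    exact sum_congr rfl fun y _ => hq x y
  rcases Nat.lt_or_ge B.card A.card with hlt | hge
  · obtain ⟨k, hk⟩ := Nat.exists_eq_add_of_le hlt.le
    have h3 := card_two (regOn hp) hd hU hpB k hk
    have h4 : k * r ≤ 4 * r := by omega
    have h5 : k ≤ 4 := Nat.le_of_mul_le_mul_right h4 hr
    obtain ⟨j, hj⟩ := heven
    have h6 : k = 2 ∨ k = 4 := by omega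
    rcases h6 with rfl | rfl
    · refine col_two hp H hH B R (by omega) hB hR ?_ ?_
      · refine evenPerms_of_inter H B R (by omega) hB ?_
        intro a b c d ha hb hc hd' h7 h8 h9 h10
        exact hint a b c d (fun h => ha ((hmB a).2 h)) (fun h => hb ((hmB b).2 h))
          (fun h => hc ((hmB c).2 h)) (fun h => hd' ((hmB d).2 h)) h7 h8 ⟨fun _ => h10, fun _ => h9⟩
      · refine evenPerms_of_inter H B (fun x y => ¬ R x y) (by omega) hB ?_
        intro a b c d ha hb hc hd' h7 h8 h9 h10
        exact hint a b c d (fun h => ha ((hmB a).2 h)) (fun h => hb ((hmB b).2 h))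
          (fun h => hc ((hmB c).2 h)) (fun h => hd' ((hmB d).2 h)) h7 h8
          ⟨fun h => absurd h h9, fun h => absurd h h10⟩
    · exact col_four hr hp hd hall hk hpB q1 q2 t1 t2 hq i1 i2
  · -- bipartite
    obtain ⟨k, hk⟩ := Nat.exists_eq_add_of_le hge
    have s1 := side_sum hp hd hall (Subset.refl A)
    have s2 := side_sum hp hd.symm (fun x => (hall x).symm) (Subset.refl B)
    have s3 : ∑ b ∈ B, ∑ a ∈ A, p b a = ∑ a ∈ A, ∑ b ∈ B, p a b := by
      rw [sum_comm]
      exact sum_congr rfl fun a _ => sum_congr rfl fun b _ => hp.symm b a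
    rw [s3] at s2
    have s4 : ∑ b ∈ B, ∑ x ∈ B, p b x = 0 :=
      sum_eq_zero fun x hx => sum_eq_zero fun y hy => hpB x hx y hy
    have s5 : inn p A + ∑ a ∈ A, ∑ b ∈ B, p a b = r * A.card := s1
    rw [s4, hk, Nat.mul_add] at s2
    have s6 : inn p A = 0 := by omega
    exact bipOn (regOn hp) A B hd hU (indep_of_inn s6) hpB

end

/-- the classes of bricks that are settled -/
def Known' (W : Type) [Fintype W] (H : SimpleGraph W) : Prop :=
  Known W H ∨ EvenPerms H.Adj ∨ TwoColour H

theorem cover_of {V : Type} [Fintype V] [DecidableEq V] {r : ℕ} {p : V → V → ℕ}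
    (hp : RGraph r p) (h : EvenPerms (gr p).Adj ∨ TwoColour (gr p) ∨ TwoMeeting (gr p)) :
    Cover 1 r p := by
  have hadj : ∀ u v, p u v ≠ 0 → (gr p).Adj u v := by
    intro u v huv
    refine Y13.adj_gr p u v ?_ (Nat.pos_of_ne_zero huv)
    rintro rfl
    exact huv (hp.loopless _)
  obtain ⟨h1, h2⟩ := H76TW.span V 1 r p hp
  apply h2
  refine H76TW.col_congr (?_ : Col r p) (one_mul r).symm (fun u v => (one_mul _).symm)
  rcases h with h | ⟨B, R, g1, g2, g3, g4, g5⟩ | h
  · exact col_of_regular h r p hp.symm hadj hp.reg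
  · exact col_two h1 (gr p) hadj B R g1 g2 g3 g4 g5
  · exact col_meeting h1 (gr p) hadj h

theorem cover_known' {V : Type} [Fintype V] [DecidableEq V] {r : ℕ} {p : V → V → ℕ}
    (hp : RGraph r p) (h : Known' V (gr p)) : Cover 1 r p := by
  rcases h with h | h | h
  · exact cover_known hp h
  · exact cover_of hp (Or.inl h)
  · exact cover_of hp (Or.inr (Or.inl h))

/-- all bricks are settled -/
theorem bricks (V E : Type) [Fintype V] [Fintype E] [DecidableEq E] (ends : E → Sym2 V)
    (hG : ∀ (W : Type) [Fintype W] (H : SimpleGraph W), Brick H →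
      OddMinor H (SimpleGraph.fromEdgeSet (Set.range ends)) → Known' W H) : Decomp ends := by
  refine decomp_of (fun V G => Good Known' G) ?_ ?_ V E ends hG
  · intro V G H h hG
    exact good_sub id Function.injective_id h hG
  · intro V _ _ r p hp hg
    exact main Pool.Agent.W209.LB.conn3 Pool.Agent.W427.LB.bicrit transport H76TW.bip H76TW.span
      tight2 connSide Known'
      (fun V _ _ r p hc hp => eight' V r p (by omega) hp)
      (fun V _ _ r p _ hp _ _ hk => Or.inl (cover_known' hp hk)) _ V rfl r p hp hg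

/-- the graph itself is in one of the classes -/
theorem direct (V E : Type) [Fintype V] [Fintype E] [DecidableEq E] (ends : E → Sym2 V)
    (hG : EvenPerms (SimpleGraph.fromEdgeSet (Set.range ends)).Adj ∨
      TwoColour (SimpleGraph.fromEdgeSet (Set.range ends)) ∨
      TwoMeeting (SimpleGraph.fromEdgeSet (Set.range ends))) : Decomp ends := by
  classical
  refine decomp_of (fun V G => EvenPerms G.Adj ∨ (∃ _ : Fintype V, TwoColour G) ∨ TwoMeeting G)
    ?_ ?_ V E ends ?_
  · intro V G H h hG
    rcases hG with hG | ⟨i, B, R, g1, g2, g3, g4, g5⟩ | ⟨B, R, g1, g2, g3⟩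
    · exact Or.inl (evenPerms_mono h hG)
    · refine Or.inr (Or.inl ⟨i, B, R, g1, fun x hx y hy hxy => g2 x hx y hy (h x y hxy), g3,
        evenPerms_mono (fun x y hxy => ⟨h x y hxy.1, hxy.2⟩) g4,
        evenPerms_mono (fun x y hxy => ⟨h x y hxy.1, hxy.2⟩) g5⟩)
    · exact Or.inr (Or.inr ⟨B, R, fun x hx y hy hxy => g1 x hx y hy (h x y hxy), g2,
        fun a b c d h1 h2 h3 h4 h5 h6 h7 => g3 a b c d h1 h2 h3 h4 (h a b h5) (h c d h6) h7⟩)
  · intro V i _ r p hp hg
    refine cover_of hp ?_
    rcases hg with hg | ⟨j, hg⟩ | hg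
    · exact Or.inl hg
    · refine Or.inr (Or.inl ?_)
      have : i = j := Subsingleton.elim _ _
      subst this
      exact hg
    · exact Or.inr (Or.inr hg)
  · rcases hG with hG | hG | hG
    · exact Or.inl hG
    · exact Or.inr (Or.inl ⟨inferInstance, hG⟩)
    · exact Or.inr (Or.inr hG)

end Pool.Agent.TH100.LV
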