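import Pool.Agent.TH100.LV.Perm

/-!
# Graphs all of whose neighbour permutations are even
-/

set_option autoImplicit false

namespace Pool.Agent.TH100.LV

open Finset

variable {V : Type} [Fintype V] [DecidableEq V]

theorem odd_orbit (σ : Equiv.Perm V) (hne : ∀ v, σ v ≠ v) {v : V} {k : ℕ} (hk : (σ ^ k) v = v)
    (hodd : Odd k) : ∃ O : Finset V, Odd O.card ∧ ∀ w, w ∈ O ↔ σ w ∈ O := by
  have hsup : v ∈ σ.support := Equiv.Perm.mem_support.2 (hne v)
  have hv : v ∈ (σ.cycleOf v).support :=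
    Equiv.Perm.mem_support_cycleOf_iff.2 ⟨Equiv.Perm.SameCycle.refl σ v, hsup⟩
  have hc := Equiv.Perm.isCycleOn_support_cycleOf σ v
  refine ⟨(σ.cycleOf v).support, ?_, fun w => ?_⟩
  · have h1 := (hc.pow_apply_eq hv).1 hk
    obtain ⟨m, hm⟩ := h1
    rw [hm] at hodd
    exact (Nat.odd_mul.1 hodd).1
  · rw [Equiv.Perm.mem_support_cycleOf_iff, Equiv.Perm.mem_support_cycleOf_iff,
      Equiv.Perm.sameCycle_apply_right]

omit [Fintype V] in
theorem even_of_colorable {H : SimpleGraph V} (σ : Equiv.Perm V) (hσ : ∀ v, H.Adj v (σ v))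
    (X : Finset V) (hX : ∀ w, w ∈ X ↔ σ w ∈ X) (hc : (H.induce (X : Set V)).Colorable 2) :
    Even X.card := by
  classical
  obtain ⟨C⟩ := hc
  have hv : ∀ v (hv : v ∈ X), C ⟨v, hv⟩ ≠ C ⟨σ v, (hX v).1 hv⟩ := by
    intro v hv
    exact C.valid (by simpa using hσ v)
  set T := X.filter (fun v => ∃ h : v ∈ X, C ⟨v, h⟩ = 0) with hT
  set F := X.filter (fun v => ¬ ∃ h : v ∈ X, C ⟨v, h⟩ = 0) with hF
  have h1 : T.card ≤ F.card := by
    refine card_le_card_of_injOn σ (fun v hv' => ?_) (σ.injective.injOn)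
    rw [hT, mem_coe, mem_filter] at hv'
    rw [hF, mem_coe, mem_filter]
    obtain ⟨h2, h3, h4⟩ := hv'
    refine ⟨(hX v).1 h2, ?_⟩
    rintro ⟨h5, h6⟩
    exact hv v h2 (h4.trans h6.symm)
  have h2 : F.card ≤ T.card := by
    refine card_le_card_of_injOn σ (fun v hv' => ?_) (σ.injective.injOn)
    rw [hF, mem_coe, mem_filter] at hv'
    rw [hT, mem_coe, mem_filter]
    obtain ⟨h2, h3⟩ := hv'
    refine ⟨(hX v).1 h2, (hX v).1 h2, ?_⟩
    have h4 := hv v h2
    have h5 : C ⟨v, h2⟩ ≠ 0 := fun h => h3 ⟨h2, h⟩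
    generalize C ⟨v, h2⟩ = x at h4 h5
    generalize C ⟨σ v, (hX v).1 h2⟩ = y at h4
    revert x y
    decide
  have h3 : T.card + F.card = X.card := by
    rw [hT, hF]
    exact card_filter_add_card_filter_not _
  exact ⟨T.card, by omega⟩

/-- no two disjoint odd cycles -/
theorem evenPerms_of_bip (H : SimpleGraph V) (heven : Even (Fintype.card V))
    (h : ∀ X : Set V, (H.induce X).Colorable 2 ∨ (H.induce Xᶜ).Colorable 2) :
    EvenPerms H.Adj := by
  intro σ hσ v k hk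
  by_contra hk2
  rw [Nat.not_even_iff_odd] at hk2
  obtain ⟨O, hO, hO2⟩ := odd_orbit σ (fun w hw => (hσ w).ne hw.symm) hk hk2
  have hcard := card_add_card_compl O
  rcases h (O : Set V) with h1 | h1
  · exact (Nat.not_even_iff_odd.2 hO) (even_of_colorable σ hσ O hO2 h1)
  · rw [← coe_compl] at h1
    have h2 := even_of_colorable σ hσ Oᶜ (fun w => by rw [mem_compl, mem_compl, hO2]) h1
    obtain ⟨a, ha⟩ := h2
    obtain ⟨b, hb⟩ := hO
    obtain ⟨c, hc⟩ := heven
    omega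

omit [Fintype V] in
theorem count (σ : Equiv.Perm V) (B X : Finset V) (hX : ∀ w, w ∈ X ↔ σ w ∈ X)
    (hB : ∀ b ∈ B, σ b ∉ B) :
    (X.filter fun w => w ∉ B ∧ σ w ∉ B).card + (X.filter fun w => w ∈ B).card =
      (X.filter fun w => w ∉ B).card := by
  classical
  have h1 : (X.filter fun w => σ w ∉ B).card = (X.filter fun w => w ∉ B).card := by
    refine card_bij (fun w _ => σ w) ?_ ?_ ?_
    · intro w hw
      rw [mem_filter] at hw ⊢
      exact ⟨(hX w).1 hw.1, hw.2⟩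
    · intro w _ w' _ h
      exact σ.injective h
    · intro w hw
      rw [mem_filter] at hw
      refine ⟨σ.symm w, ?_, Equiv.apply_symm_apply σ w⟩
      rw [mem_filter, hX, Equiv.apply_symm_apply]
      exact hw
  rw [← h1, ← card_union_of_disjoint]
  · congr 1
    ext w
    rw [mem_union, mem_filter, mem_filter, mem_filter]
    constructor
    · rintro (⟨h2, _, h3⟩ | ⟨h2, h3⟩)
      · exact ⟨h2, h3⟩
      · exact ⟨h2, hB w h3⟩
    · rintro ⟨h2, h3⟩
      by_cases h4 : w ∈ B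
      · exact Or.inr ⟨h2, h4⟩
      · exact Or.inl ⟨h2, h4, h3⟩
  · rw [disjoint_left]
    intro w h2 h3
    exact (mem_filter.1 h2).2.1 (mem_filter.1 h3).2

/-- pairwise intersecting edges outside a stable set with `|V| = 2 |B| + 2` -/
theorem evenPerms_of_inter (H : SimpleGraph V) (B : Finset V) (R : V → V → Prop)
    (hcard : Fintype.card V = 2 * B.card + 2) (hB : ∀ x ∈ B, ∀ y ∈ B, ¬ H.Adj x y)
    (hint : ∀ a b c d, a ∉ B → b ∉ B → c ∉ B → d ∉ B → H.Adj a b → H.Adj c d → R a b → R c d →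
      a = c ∨ a = d ∨ b = c ∨ b = d) :
    EvenPerms (fun x y => H.Adj x y ∧ (x ∈ B ∨ y ∈ B ∨ R x y)) := by
  intro σ hσ v k hk
  by_contra hk2
  rw [Nat.not_even_iff_odd] at hk2
  obtain ⟨O, hO, hO2⟩ := odd_orbit σ (fun w hw => (hσ w).1.ne hw.symm) hk hk2
  have hσB : ∀ b ∈ B, σ b ∉ B := fun b hb hb' => hB b hb _ hb' (hσ b).1
  have c1 := count σ B O hO2 hσB
  have c2 := count σ B Oᶜ (fun w => by rw [mem_compl, mem_compl, hO2]) hσB
  have c3 : (O.filter fun w => w ∈ B).card + (O.filter fun w => w ∉ B).card = O.card :=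
    card_filter_add_card_filter_not _
  have c4 : (Oᶜ.filter fun w => w ∈ B).card + (Oᶜ.filter fun w => w ∉ B).card = Oᶜ.card :=
    card_filter_add_card_filter_not _
  have c5 := card_add_card_compl O
  have c6 : (O.filter fun w => w ∈ B).card + (Oᶜ.filter fun w => w ∈ B).card = B.card := by
    rw [← card_union_of_disjoint]
    · congr 1
      ext w
      simp only [mem_union, mem_filter, mem_compl]
      tauto
    · rw [disjoint_left]
      intro w h2 h3
      exact (mem_compl.1 (mem_filter.1 h3).1) (mem_filter.1 h2).1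
  obtain ⟨a, ha⟩ := hO
  have n1 : 0 < (O.filter fun w => w ∉ B ∧ σ w ∉ B).card := by omega
  have n2 : 0 < (Oᶜ.filter fun w => w ∉ B ∧ σ w ∉ B).card := by omega
  obtain ⟨w, hw⟩ := card_pos.1 n1
  obtain ⟨w', hw'⟩ := card_pos.1 n2
  rw [mem_filter] at hw hw'
  have e1 := hσ w
  have e2 := hσ w'
  have r1 : R w (σ w) := (e1.2.resolve_left hw.2.1).resolve_left hw.2.2
  have r2 : R w' (σ w') := (e2.2.resolve_left hw'.2.1).resolve_left hw'.2.2
  have o1 : σ w ∈ O := (hO2 w).1 hw.1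
  have o2 : w' ∉ O := mem_compl.1 hw'.1
  have o3 : σ w' ∉ O := fun h => o2 ((hO2 w').2 h)
  rcases hint w (σ w) w' (σ w') hw.2.1 hw.2.2 hw'.2.1 hw'.2.2 e1.1 e2.1 r1 r2 with h | h | h | h
  · exact o2 (h ▸ hw.1)
  · exact o3 (h ▸ hw.1)
  · exact o2 (h ▸ o1)
  · exact o3 (h ▸ o1)

end Pool.Agent.TH100.LV
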