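import Pool.Agent.H840R6.Two

/-!
# Regular multigraphs all of whose neighbour permutations are even
-/

set_option autoImplicit false

namespace Pool.Agent.TH100.LV

open Finset H76TW

/-- every permutation of the vertices which moves each vertex to a neighbour has only even cycles -/
def EvenPerms {W : Type} (adj : W → W → Prop) : Prop :=
  ∀ σ : Equiv.Perm W, (∀ v, adj v (σ v)) → ∀ (v : W) (k : ℕ), (σ ^ k) v = v → Even k

variable {V : Type} [Fintype V] [DecidableEq V]

theorem exists_perm {p : V → V → ℕ} (hs : ∀ u v, p u v = p v u) {s : ℕ} (h1 : 1 ≤ s)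
    (hreg : ∀ v, ∑ w, p v w = s) : ∃ σ : Equiv.Perm V, ∀ v, p v (σ v) ≠ 0 := by
  classical
  let t : V → Finset V := fun v => univ.filter fun w => p v w ≠ 0
  have hall : ∀ S : Finset V, S.card ≤ (S.biUnion t).card := by
    intro S
    have e1 : ∑ v ∈ S, ∑ w ∈ S.biUnion t, p v w = S.card * s := by
      rw [← smul_eq_mul, ← sum_const]
      refine sum_congr rfl fun v hv => ?_
      rw [← hreg v]
      refine sum_subset (subset_univ _) ?_
      intro w _ hw
      by_contra hne
      exact hw (mem_biUnion.2 ⟨v, hv, mem_filter.2 ⟨mem_univ _, hne⟩⟩)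
    have e2 : ∑ v ∈ S, ∑ w ∈ S.biUnion t, p v w ≤ (S.biUnion t).card * s := by
      rw [sum_comm, ← smul_eq_mul, ← sum_const]
      refine sum_le_sum fun w _ => ?_
      rw [← hreg w]
      calc ∑ v ∈ S, p v w ≤ ∑ v, p v w := sum_le_sum_of_subset (subset_univ _)
        _ = ∑ v, p w v := sum_congr rfl fun v _ => hs v w
    rw [e1] at e2
    exact Nat.le_of_mul_le_mul_right e2 (by omega)
  obtain ⟨f, hf1, hf2⟩ := (Finset.all_card_le_biUnion_card_iff_exists_injective t).1 hall
  refine ⟨Equiv.ofBijective f (Finite.injective_iff_bijective.1 hf1), fun v => ?_⟩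
  exact (mem_filter.1 (hf2 v)).2

omit [Fintype V] [DecidableEq V] in
theorem exists_colour (σ : Equiv.Perm V) (h : ∀ (v : V) (k : ℕ), (σ ^ k) v = v → Even k) :
    ∃ c : V → Bool, ∀ v, c (σ v) = !(c v) := by
  classical
  have hZ : ∀ (v : V) (k : ℤ), (σ ^ k) v = v → Even k := by
    intro v k hk
    obtain ⟨n, rfl | rfl⟩ := Int.eq_nat_or_neg k
    · rw [zpow_natCast] at hk
      exact_mod_cast h v n hk
    · rw [zpow_neg, zpow_natCast, Equiv.Perm.inv_eq_iff_eq] at hk
      have h1 := h v n hk.symm
      rw [even_neg]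
      exact_mod_cast h1
  let S := Equiv.Perm.SameCycle.setoid σ
  let rep : V → V := fun v => (Quotient.mk S v).out
  have hrep : ∀ v, σ.SameCycle (rep v) v := fun v => Quotient.exact (Quotient.out_eq (Quotient.mk S v))
  choose i hi using hrep
  refine ⟨fun v => decide (Even (i v)), fun v => ?_⟩
  have hr : rep (σ v) = rep v := by
    have : Quotient.mk S (σ v) = Quotient.mk S v :=
      Quotient.sound (Equiv.Perm.sameCycle_apply_left.2 (Equiv.Perm.SameCycle.refl σ v))
    show (Quotient.mk S (σ v)).out = (Quotient.mk S v).out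
    rw [this]
  have h1 := hi (σ v)
  rw [hr] at h1
  have h2 : (σ ^ (1 + i v)) (rep v) = σ v := by
    rw [zpow_add, Equiv.Perm.mul_apply, hi v, zpow_one]
  have h3 : (σ ^ (i (σ v) - (1 + i v))) ((σ ^ (1 + i v)) (rep v)) = (σ ^ (1 + i v)) (rep v) := by
    rw [← Equiv.Perm.mul_apply, ← zpow_add, sub_add_cancel, h1, h2]
  have h4 := hZ _ _ h3
  have h5 : Even (i (σ v)) ↔ ¬ Even (i v) := by
    constructor
    · rintro ⟨a, ha⟩ ⟨b, hb⟩
      obtain ⟨d, hd⟩ := h4
      omega
    · intro h7
      by_contra h6
      rw [Int.not_even_iff_odd] at h6 h7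
      obtain ⟨a, ha⟩ := h6
      obtain ⟨b, hb⟩ := h7
      obtain ⟨d, hd⟩ := h4
      omega
  by_cases h6 : Even (i v)
  · simp only [h6, decide_true, Bool.not_true, decide_eq_false_iff_not]
    rw [h5]
    exact fun h7 => h7 h6
  · simp only [h6, decide_false, Bool.not_false, decide_eq_true_eq]
    exact h5.2 h6

theorem exists_pm {p : V → V → ℕ} (hs : ∀ u v, p u v = p v u) {adj : V → V → Prop}
    (hE : EvenPerms adj) (hsupp : ∀ u v, p u v ≠ 0 → adj u v) {s : ℕ} (h1 : 1 ≤ s)
    (hreg : ∀ v, ∑ w, p v w = s) :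
    ∃ M : V → V, (∀ v, M (M v) = v) ∧ (∀ v, M v ≠ v) ∧ ∀ v, p v (M v) ≠ 0 := by
  obtain ⟨σ, hσ⟩ := exists_perm hs h1 hreg
  obtain ⟨c, hc⟩ := exists_colour σ (hE σ fun v => hsupp _ _ (hσ v))
  have hc' : ∀ v, c (σ.symm v) = !(c v) := by
    intro v
    have := hc (σ.symm v)
    rw [Equiv.apply_symm_apply] at this
    rw [this, Bool.not_not]
  have hne : ∀ v w, c w = !(c v) → w ≠ v := by
    rintro v w h rfl
    cases h2 : c w <;> rw [h2] at h <;> exact absurd h (by decide)
  refine ⟨fun v => if c v = true then σ v else σ.symm v, fun v => ?_, fun v => ?_, fun v => ?_⟩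
  · by_cases h2 : c v = true
    · have h3 : ¬ (c (σ v) = true) := by rw [hc, h2]; decide
      simp only [if_pos h2, if_neg h3, Equiv.symm_apply_apply]
    · have h3 : c (σ.symm v) = true := by
        rw [hc']
        cases h4 : c v
        · rfl
        · exact absurd h4 h2
      simp only [if_neg h2, if_pos h3, Equiv.apply_symm_apply]
  · by_cases h2 : c v = true
    · simp only [if_pos h2]
      exact hne v _ (hc v)
    · simp only [if_neg h2]
      exact hne v _ (hc' v)
  · by_cases h2 : c v = true
    · simp only [if_pos h2]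
      exact hσ v
    · simp only [if_neg h2]
      have := hσ (σ.symm v)
      rw [Equiv.apply_symm_apply] at this
      rwa [hs]

theorem col_of_regular {adj : V → V → Prop} (hE : EvenPerms adj) :
    ∀ (s : ℕ) (p : V → V → ℕ), (∀ u v, p u v = p v u) → (∀ u v, p u v ≠ 0 → adj u v) →
      (∀ v, ∑ w, p v w = s) → Col s p := by
  intro s
  induction s with
  | zero =>
    intro p hs hsupp hreg
    apply bip_zero
    intro u v
    have h := hreg u
    rw [sum_eq_zero_iff] at h
    exact h v (mem_univ v)
  | succ s ih =>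
    intro p hs hsupp hreg
    obtain ⟨M, hM1, hM2, hM3⟩ := exists_pm hs hE hsupp (by omega) hreg
    have hsw : ∀ u v, (M u = v) ↔ (M v = u) := by
      intro u v
      constructor
      · rintro rfl; exact hM1 u
      · rintro rfl; exact hM1 v
    have hle : ∀ u v, (if M u = v then 1 else 0) ≤ p u v := by
      intro u v
      split_ifs with h
      · subst h
        exact Nat.one_le_iff_ne_zero.2 (hM3 u)
      · exact Nat.zero_le _
    have c1 : Col s (fun u v => p u v - if M u = v then 1 else 0) := by
      refine ih _ ?_ ?_ ?_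
      · intro u v
        rw [hs u v]
        congr 1
        exact if_congr (hsw u v) rfl rfl
      · intro u v h
        refine hsupp u v fun h0 => h ?_
        rw [h0, Nat.zero_sub]
      · intro v
        rw [sum_tsub_distrib _ (fun w _ => hle v w), hreg v, sum_ite_eq univ (M v) (fun _ => 1),
          if_pos (mem_univ _)]
        omega
    have c2 : Col 1 (fun u v => if M u = v then 1 else 0) := by
      refine ⟨fun _ => M, fun _ => hM1, fun u v _ => ?_⟩
      by_cases h : M u = v
      · simp [h]
      · simp [h]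
    have c3 := H840R6.col_add c1 c2
    have hfun : (fun u v => (p u v - if M u = v then 1 else 0) + if M u = v then 1 else 0) = p := by
      funext u v
      exact Nat.sub_add_cancel (hle u v)
    rw [hfun] at c3
    exact c3

end Pool.Agent.TH100.LV
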