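import Pool.Agent.H840R6.Inter
import Pool.Agent.TH100.LV.Perm

/-!
# Splitting an `r`-graph with a stable set of size `|V| / 2 - 1`
-/

set_option autoImplicit false

namespace Pool.Agent.TH100.LV

open Finset H76TW H840R6

variable {V : Type} [Fintype V] [DecidableEq V]

omit [Fintype V] [DecidableEq V] in
theorem even_inn {q : V → V → ℕ} (hs : ∀ x y, q x y = q y x) (hl : ∀ x, q x x = 0)
    (S : Finset V) : ∃ T, inn q S = 2 * T := by
  have h : ((inn q S : ℕ) : ZMod 2) = 0 := by
    unfold inn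
    rw [← sum_product']
    push_cast
    refine sum_involution (fun a _ => (a.2, a.1)) ?_ ?_ ?_ ?_
    · intro a _
      simp only
      rw [hs a.2 a.1]
      exact CharTwo.add_self_eq_zero _
    · intro a _ h1 h2
      apply h1
      have h3 : a.2 = a.1 := congrArg Prod.fst h2
      rw [h3, hl]
      simp
    · intro a ha
      rw [mem_product] at ha ⊢
      exact ⟨ha.2, ha.1⟩
    · intro a _
      rfl
  rw [ZMod.natCast_eq_zero_iff_even] at h
  obtain ⟨T, hT⟩ := h
  exact ⟨T, by omega⟩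

omit [Fintype V] in
theorem deg_le {q : V → V → ℕ} (hs : ∀ x y, q x y = q y x) {A S : Finset V} (hSA : S ⊆ A) :
    ∑ a ∈ S, ∑ x ∈ A, q a x + ∑ a ∈ S, ∑ x ∈ A \ S, q a x ≤ inn q A := by
  unfold inn
  rw [← sum_sdiff hSA, add_comm]
  refine Nat.add_le_add_right ?_ _
  rw [sum_comm]
  refine sum_le_sum fun x _ => ?_
  rw [sum_congr rfl (fun y _ => hs y x)]
  exact sum_le_sum_of_subset hSA

omit [Fintype V] in
theorem inn_split {q : V → V → ℕ} {A S : Finset V} (hSA : S ⊆ A) :
    ∑ a ∈ S, ∑ x ∈ A, q a x = ∑ a ∈ S, ∑ x ∈ A \ S, q a x + inn q S := by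
  unfold inn
  rw [← sum_add_distrib]
  exact sum_congr rfl fun a _ => (sum_sdiff hSA).symm

theorem split {r : ℕ} {p : V → V → ℕ} (hp : RG r p univ) {A B : Finset V} (hd : Disjoint A B)
    (hall : ∀ x, x ∈ A ∨ x ∈ B) (hcard : A.card = B.card + 2)
    (hB : ∀ x ∈ B, ∀ y ∈ B, p x y = 0) (q1 q2 : V → V → ℕ)
    (t1 : ∀ x y, q1 x y = q1 y x) (t2 : ∀ x y, q2 x y = q2 y x)
    (hq : ∀ x y, p x y = q1 x y + q2 x y) :
    ∃ (m1 m2 : ℕ) (F : V → V → ℕ), m1 + m2 = r ∧
      (∀ a ∈ A, ∀ b ∈ B, F a b ≤ p a b) ∧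
      (∀ a ∈ A, ∑ b ∈ B, F a b + ∑ x ∈ A, q1 a x = m1) ∧
      (∀ b ∈ B, ∑ a ∈ A, F a b = m1) := by
  have l1 : ∀ x, q1 x x = 0 := fun x => by have := hp.loopless x; have := hq x x; omega
  have l2 : ∀ x, q2 x x = 0 := fun x => by have := hp.loopless x; have := hq x x; omega
  obtain ⟨m1, hm1⟩ := even_inn t1 l1 A
  obtain ⟨m2, hm2⟩ := even_inn t2 l2 A
  have hinn : ∀ S : Finset V, inn p S = inn q1 S + inn q2 S := by
    intro S
    unfold inn
    rw [← sum_add_distrib]
    refine sum_congr rfl fun x _ => ?_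
    rw [← sum_add_distrib]
    exact sum_congr rfl fun y _ => hq x y
  have hinB : ∀ S : Finset V, S ⊆ B → inn p S = 0 := by
    intro S hS
    unfold inn
    exact sum_eq_zero fun x hx => sum_eq_zero fun y hy => hB x (hS hx) y (hS hy)
  have hm : m1 + m2 = r := by
    have i1 := side_sum hp hd hall (Subset.refl A)
    have i2 := side_sum hp hd.symm (fun x => (hall x).symm) (Subset.refl B)
    have e1 : ∑ b ∈ B, ∑ a ∈ A, p b a = ∑ a ∈ A, ∑ b ∈ B, p a b := by
      rw [sum_comm]
      exact sum_congr rfl fun a _ => sum_congr rfl fun b _ => hp.symm b a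
    rw [e1] at i2
    have e2 : inn p A + ∑ a ∈ A, ∑ b ∈ B, p a b = r * A.card := i1
    have e3 : inn p B + ∑ a ∈ A, ∑ b ∈ B, p a b = r * B.card := i2
    rw [hinB B (Subset.refl B)] at e3
    rw [hinn, hm1, hm2, hcard, Nat.mul_add] at e2
    omega
  have hle : ∀ a ∈ A, ∑ x ∈ A, q1 a x ≤ m1 := by
    intro a ha
    have h1 := deg_le t1 (singleton_subset_iff.2 ha)
    rw [sum_singleton, sum_singleton, hm1] at h1
    have h2 : ∑ x ∈ A \ {a}, q1 a x = ∑ x ∈ A, q1 a x := by
      refine sum_subset sdiff_subset ?_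
      intro x hx hx'
      rw [mem_sdiff, mem_singleton, not_and, not_not] at hx'
      rw [hx' hx, l1]
    omega
  have hsum : ∀ S : Finset V, S ⊆ A →
      ∑ a ∈ S, (m1 - ∑ x ∈ A, q1 a x) + ∑ a ∈ S, ∑ x ∈ A, q1 a x = m1 * S.card := by
    intro S hS
    rw [← sum_add_distrib, mul_comm, ← smul_eq_mul, ← sum_const]
    exact sum_congr rfl fun a ha => Nat.sub_add_cancel (hle a (hS ha))
  obtain ⟨F, hF1, hF2, hF3⟩ : ∃ F : V → V → ℕ, (∀ a ∈ A, ∀ b ∈ B, F a b ≤ p a b) ∧
      (∀ a ∈ A, ∑ b ∈ B, F a b = m1 - ∑ x ∈ A, q1 a x) ∧ (∀ b ∈ B, ∑ a ∈ A, F a b = m1) := by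
    apply gale A B (m1 * B.card) p (fun a => m1 - ∑ x ∈ A, q1 a x) (fun _ => m1)
    · have h1 := hsum A (Subset.refl A)
      have h2 : ∑ a ∈ A, ∑ x ∈ A, q1 a x = 2 * m1 := hm1
      rw [h2, hcard, Nat.mul_add] at h1
      omega
    · rw [sum_const, smul_eq_mul, mul_comm]
    intro S W
    set S' := A.filter (fun a => a ∈ S) with hS'
    set W' := B.filter (fun b => b ∈ W) with hW'
    have hSA : S' ⊆ A := filter_subset _ _
    have hWB : W' ⊆ B := filter_subset _ _
    have e1 : wt A (fun a => m1 - ∑ x ∈ A, q1 a x) S = ∑ a ∈ S', (m1 - ∑ x ∈ A, q1 a x) := by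
      unfold wt
      rw [← sum_filter]
    have e2 : wt B (fun _ => m1) W = m1 * W'.card := by
      unfold wt
      rw [← sum_filter, sum_const, smul_eq_mul, mul_comm]
    have e3 : cap A B p S W = ∑ a ∈ S', ∑ b ∈ B \ W', p a b := by
      unfold cap
      rw [hS', sum_filter]
      refine sum_congr rfl fun a _ => ?_
      by_cases ha : a ∈ S
      · rw [if_pos ha]
        have h1 : B \ W' = B.filter (fun b => b ∉ W) := by
          ext b
          simp only [hW', mem_sdiff, mem_filter, not_and]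
          tauto
        rw [h1, sum_filter]
        exact sum_congr rfl fun b _ => by simp [ha]
      · rw [if_neg ha]
        exact sum_eq_zero fun b _ => by simp [ha]
    have e4 := hsum S' hSA
    rw [e1, e2, e3]
    -- the basic identities
    have i1 := side_sum hp hd hall hSA
    have i2 := side_sum hp hd.symm (fun x => (hall x).symm) hWB
    have s1 : ∑ a ∈ S', ∑ b ∈ B, p a b =
        ∑ a ∈ S', ∑ b ∈ B \ W', p a b + ∑ a ∈ S', ∑ b ∈ W', p a b := by
      rw [← sum_add_distrib]
      exact sum_congr rfl fun a _ => (sum_sdiff hWB).symm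
    have s2 : ∑ b ∈ W', ∑ a ∈ A, p b a =
        ∑ b ∈ W', ∑ a ∈ A \ S', p b a + ∑ a ∈ S', ∑ b ∈ W', p a b := by
      rw [sum_comm (s := S'), ← sum_add_distrib]
      refine sum_congr rfl fun b _ => ?_
      rw [← sum_sdiff hSA]
      congr 1
      exact sum_congr rfl fun a _ => hp.symm b a
    rw [s1] at i1
    rw [s2] at i2
    have j1 : ∑ a ∈ S', ∑ x ∈ A, p a x =
        ∑ a ∈ S', ∑ x ∈ A, q1 a x + ∑ a ∈ S', ∑ x ∈ A, q2 a x := by
      rw [← sum_add_distrib]
      refine sum_congr rfl fun a _ => ?_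
      rw [← sum_add_distrib]
      exact sum_congr rfl fun x _ => hq a x
    rw [j1] at i1
    have k1 := inn_split (q := q1) hSA
    have k2 := inn_split (q := q2) hSA
    have d2 := deg_le t2 hSA
    rw [hm2] at d2
    set X := ∑ a ∈ S', ∑ b ∈ B \ W', p a b with hX
    set E := ∑ a ∈ S', ∑ b ∈ W', p a b with hE
    set I1 := ∑ a ∈ S', ∑ x ∈ A, q1 a x with hI1
    set I2 := ∑ a ∈ S', ∑ x ∈ A, q2 a x with hI2
    rcases Nat.lt_or_ge W'.card S'.card with hlt | hge
    swap
    · have := Nat.mul_le_mul_left m1 hge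
      omega
    rcases Nat.lt_or_ge (W'.card + 1) S'.card with hlt2 | hge2
    · obtain ⟨d, hd'⟩ := Nat.exists_eq_add_of_lt hlt2
      have hd2 : S'.card = W'.card + (d + 2) := by omega
      rw [hd2] at i1 e4
      have f1 : r * (W'.card + (d + 2)) = r * W'.card + (m1 * d + m2 * d + 2 * m1 + 2 * m2) := by
        rw [← hm]; ring
      have f2 : m1 * (W'.card + (d + 2)) = m1 * W'.card + (m1 * d + 2 * m1) := by ring
      rw [f1] at i1
      rw [f2] at e4
      omega
    · have hd1 : S'.card = W'.card + 1 := by omega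
      have hSW : Disjoint S' W' := disjoint_of_subset_left hSA (disjoint_of_subset_right hWB hd)
      have hodd : (S' ∪ W').card = 2 * W'.card + 1 := by
        rw [card_union_of_disjoint hSW]; omega
      have h1 := hp.odd (S' ∪ W') (subset_univ _) (by rw [hodd]; exact ⟨W'.card, rfl⟩)
      have h2 := cut_add_inner hp (S' ∪ W')
      have h3 : ∑ x ∈ S' ∪ W', ∑ y ∈ S' ∪ W', p x y = inn p S' + inn p W' + 2 * E := by
        rw [hE, sum_union hSW]
        have f1 : ∑ x ∈ S', ∑ y ∈ S' ∪ W', p x y = inn p S' + ∑ a ∈ S', ∑ b ∈ W', p a b := by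
          unfold inn
          rw [← sum_add_distrib]
          exact sum_congr rfl fun x _ => sum_union hSW
        have f2 : ∑ x ∈ W', ∑ y ∈ S' ∪ W', p x y = inn p W' + ∑ a ∈ S', ∑ b ∈ W', p a b := by
          unfold inn
          rw [sum_comm (s := S'), ← sum_add_distrib]
          refine sum_congr rfl fun x _ => ?_
          rw [sum_union hSW, add_comm]
          congr 1
          exact sum_congr rfl fun a _ => hp.symm x a
        rw [f1, f2]
        ring
      rw [h3, hinn, hinB W' hWB, hodd] at h2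
      have h4 : r * (2 * W'.card + 1) = 2 * (r * W'.card) + r := by ring
      rw [h4] at h2
      rw [hd1] at i1 e4
      have h5 : r * (W'.card + 1) = r * W'.card + r := by ring
      have h6 : m1 * (W'.card + 1) = m1 * W'.card + m1 := by ring
      rw [h5] at i1
      rw [h6] at e4
      omega
  refine ⟨m1, m2, F, hm, hF1, fun a ha => ?_, hF3⟩
  rw [hF2 a ha]
  exact Nat.sub_add_cancel (hle a ha)

/-- `r`-graphs with a stable set of size `|V| / 2 - 1` and two colours of the other edges -/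
theorem col_two {r : ℕ} {p : V → V → ℕ} (hp : RG r p univ) (H : SimpleGraph V)
    (hH : ∀ u v, p u v ≠ 0 → H.Adj u v) (B : Finset V) (R : V → V → Prop)
    (hcard : Fintype.card V = 2 * B.card + 2) (hB : ∀ x ∈ B, ∀ y ∈ B, ¬ H.Adj x y)
    (hR : ∀ x y, R x y → R y x)
    (h1 : EvenPerms (fun x y => H.Adj x y ∧ (x ∈ B ∨ y ∈ B ∨ R x y)))
    (h2 : EvenPerms (fun x y => H.Adj x y ∧ (x ∈ B ∨ y ∈ B ∨ ¬ R x y))) : Col r p := by
  classical
  have hR' : ∀ x y, R x y ↔ R y x := fun x y => ⟨hR x y, hR y x⟩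
  set A := Bᶜ with hA
  have hd : Disjoint A B := disjoint_compl_left
  have hall : ∀ x, x ∈ A ∨ x ∈ B := by
    intro x
    by_cases h : x ∈ B
    · exact Or.inr h
    · exact Or.inl (mem_compl.2 h)
  have hc : A.card = B.card + 2 := by
    have := card_add_card_compl B
    rw [hA]
    omega
  have hpB : ∀ x ∈ B, ∀ y ∈ B, p x y = 0 := by
    intro x hx y hy
    by_contra h
    exact hB x hx y hy (hH x y h)
  obtain ⟨m1, m2, F, hm, hF1, hF2, hF3⟩ := split hp hd hall hc hpB
    (fun x y => if R x y then p x y else 0) (fun x y => if R x y then 0 else p x y)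
    (fun x y => by rw [hp.symm x y]; exact if_congr (hR' x y) rfl rfl)
    (fun x y => by rw [hp.symm x y]; exact if_congr (hR' x y) rfl rfl)
    (fun x y => by by_cases h : R x y <;> simp [h])
  have nAB : ∀ x, x ∈ A → x ∉ B := fun x hx hx' => disjoint_left.1 hd hx hx'
  have hU : (univ : Finset V) = A ∪ B := by
    ext x
    simpa using hall x
  set P1 : V → V → ℕ := fun x y => if x ∈ A ∧ y ∈ A then (if R x y then p x y else 0)
    else H840R6.ext A B F x y with hP1
  have eAA : ∀ x ∈ A, ∀ y ∈ A, P1 x y = if R x y then p x y else 0 := by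
    intro x hx y hy
    simp only [hP1, if_pos (And.intro hx hy)]
  have eAB : ∀ x ∈ A, ∀ y ∈ B, P1 x y = F x y := by
    intro x hx y hy
    simp only [hP1]
    rw [if_neg (fun h => nAB y h.2 hy)]
    unfold H840R6.ext
    rw [if_pos ⟨hx, hy⟩]
  have eBA : ∀ x ∈ B, ∀ y ∈ A, P1 x y = F y x := by
    intro x hx y hy
    simp only [hP1]
    rw [if_neg (fun h => nAB x h.1 hx)]
    unfold H840R6.ext
    rw [if_neg (fun h => nAB x h.1 hx), if_pos ⟨hx, hy⟩]
  have eBB : ∀ x ∈ B, ∀ y ∈ B, P1 x y = 0 := by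
    intro x hx y hy
    simp only [hP1]
    rw [if_neg (fun h => nAB x h.1 hx)]
    unfold H840R6.ext
    rw [if_neg (fun h => nAB x h.1 hx), if_neg (fun h => nAB y h.2 hy)]
  have hsym : ∀ x y, P1 x y = P1 y x := by
    intro x y
    rcases hall x with hx | hx <;> rcases hall y with hy | hy
    · rw [eAA x hx y hy, eAA y hy x hx, hp.symm x y]
      exact if_congr (hR' x y) rfl rfl
    · rw [eAB x hx y hy, eBA y hy x hx]
    · rw [eBA x hx y hy, eAB y hy x hx]
    · rw [eBB x hx y hy, eBB y hy x hx]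
  have hle : ∀ x y, P1 x y ≤ p x y := by
    intro x y
    rcases hall x with hx | hx <;> rcases hall y with hy | hy
    · rw [eAA x hx y hy]
      split_ifs
      · exact le_rfl
      · exact Nat.zero_le _
    · rw [eAB x hx y hy]
      exact hF1 x hx y hy
    · rw [eBA x hx y hy, hp.symm]
      exact hF1 y hy x hx
    · rw [eBB x hx y hy]
      exact Nat.zero_le _
  have hreg : ∀ x, ∑ y, P1 x y = m1 := by
    intro x
    rw [hU, sum_union hd]
    rcases hall x with hx | hx
    · rw [← hF2 x hx, add_comm]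
      congr 1
      · exact sum_congr rfl fun y hy => eAB x hx y hy
      · exact sum_congr rfl fun y hy => eAA x hx y hy
    · rw [sum_eq_zero (s := B) (fun y hy => eBB x hx y hy), add_zero, ← hF3 x hx]
      exact sum_congr rfl fun y hy => eBA x hx y hy
  have c1 : Col m1 P1 := by
    refine col_of_regular h1 m1 P1 hsym ?_ hreg
    intro x y hxy
    have hadj := hH x y (fun h0 => hxy (Nat.le_zero.1 (h0 ▸ hle x y)))
    refine ⟨hadj, ?_⟩
    by_cases hx : x ∈ B
    · exact Or.inl hx
    by_cases hy : y ∈ B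
    · exact Or.inr (Or.inl hy)
    refine Or.inr (Or.inr ?_)
    by_contra hRxy
    rw [eAA x (mem_compl.2 hx) y (mem_compl.2 hy), if_neg hRxy] at hxy
    exact hxy rfl
  have c2 : Col m2 (fun x y => p x y - P1 x y) := by
    refine col_of_regular h2 m2 _ ?_ ?_ ?_
    · intro x y
      rw [hp.symm x y, hsym x y]
    · intro x y hxy
      have hadj := hH x y (fun h0 => hxy (by rw [h0, Nat.zero_sub]))
      refine ⟨hadj, ?_⟩
      by_cases hx : x ∈ B
      · exact Or.inl hx
      by_cases hy : y ∈ B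
      · exact Or.inr (Or.inl hy)
      refine Or.inr (Or.inr ?_)
      intro hRxy
      apply hxy
      rw [eAA x (mem_compl.2 hx) y (mem_compl.2 hy), if_pos hRxy, Nat.sub_self]
    · intro x
      rw [sum_tsub_distrib _ (fun y _ => hle x y), hreg x, hp.reg x (mem_univ x)]
      omega
  have c3 := col_add c1 c2
  rw [hm] at c3
  have hfun : (fun x y => P1 x y + (p x y - P1 x y)) = p := by
    funext x y
    have := hle x y
    omega
  rw [hfun] at c3
  exact c3

end Pool.Agent.TH100.LV
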