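import Pool.Agent.TH100.LV.Split
import Pool.Agent.TH100.LV.Cls

/-!
# `r`-graphs with a stable set such that the other edges form two intersecting classes
-/

set_option autoImplicit false

namespace Pool.Agent.TH100.LV

open Finset H76TW H840R6

variable {V : Type} [Fintype V] [DecidableEq V]

/-- any two edges of `q` inside `A` meet -/
def Inters (q : V → V → ℕ) (A : Finset V) : Prop :=
  ∀ x ∈ A, ∀ y ∈ A, ∀ z ∈ A, ∀ w ∈ A, q x y ≠ 0 → q z w ≠ 0 → (x = z ∨ x = w) ∨ (y = z ∨ y = w)

theorem card_two {T : ℕ} {q : V → V → ℕ} {X : Finset V} (h : RegOn T q X) {A B : Finset V}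
    (hd : Disjoint A B) (hX : X = A ∪ B) (hB : Indep q B) (k : ℕ) (hc : A.card = B.card + k) :
    inn q A = k * T := by
  have s1 : ∀ a ∈ X, ∑ x ∈ A, q a x + ∑ x ∈ B, q a x = T := by
    intro a ha
    rw [← sum_union hd, ← hX, ← h.reg a ha]
    refine sum_subset (subset_univ _) fun x _ hx => ?_
    by_contra hne
    rw [h.symm] at hne
    exact hx (h.supp x a hne)
  have s2 : inn q A + ∑ a ∈ A, ∑ b ∈ B, q a b = T * A.card := by
    unfold inn
    rw [← sum_add_distrib, mul_comm, ← smul_eq_mul, ← sum_const]
    exact sum_congr rfl fun a ha => s1 a (by rw [hX]; exact mem_union_left _ ha)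
  have s3 : ∑ b ∈ B, ∑ a ∈ A, q b a + inn q B = T * B.card := by
    unfold inn
    rw [← sum_add_distrib, mul_comm, ← smul_eq_mul, ← sum_const]
    exact sum_congr rfl fun a ha => s1 a (by rw [hX]; exact mem_union_right _ ha)
  have s4 : ∑ b ∈ B, ∑ a ∈ A, q b a = ∑ a ∈ A, ∑ b ∈ B, q a b := by
    rw [sum_comm]
    exact sum_congr rfl fun a _ => sum_congr rfl fun b _ => h.symm b a
  have s5 : inn q B = 0 := by
    unfold inn
    exact sum_eq_zero fun x hx => sum_eq_zero fun y hy => hB x hx y hy
  rw [s4, s5] at s3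
  rw [hc, Nat.mul_add] at s2
  have : k * T = T * k := mul_comm _ _
  omega

/-- a regular multigraph with a stable set of size `|X| / 2 - 1` and intersecting other edges -/
theorem col_reg_two {T : ℕ} {q : V → V → ℕ} {X : Finset V} (h : RegOn T q X) {A B : Finset V}
    (hd : Disjoint A B) (hX : X = A ∪ B) (hB : Indep q B) (hc : A.card = B.card + 2)
    (hA : Inters q A) : Col T q := by
  have h2 := card_two h hd hX hB 2 hc
  refine phase2 h B A hd.symm (by rw [hX, union_comm]) hB ?_
  rcases classify h.symm h.loop A hA with h1 | ⟨v, hv, h1⟩ | ⟨a, ha, haS, h1⟩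
  · exact Or.inl h1
  · have h3 := inn_star h.symm h.loop hv h1
    exact Or.inr (Or.inl ⟨v, hv, h1, by omega⟩)
  · obtain ⟨h3, h4⟩ := inn_tri h.symm h.loop ha haS h1
    exact Or.inr (Or.inr ⟨a, ha, haS, h1, by omega⟩)

/-- the three edges of a triangle have total multiplicity at most `r` -/
theorem tri_le {r : ℕ} {p : V → V → ℕ} (hp : RG r p univ) {a : Fin 3 → V}
    (ha : Function.Injective a) : p (a 0) (a 1) + p (a 0) (a 2) + p (a 1) (a 2) ≤ r := by
  have a01 : a 0 ≠ a 1 := fun h => absurd (ha h) (by decide)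
  have a02 : a 0 ≠ a 2 := fun h => absurd (ha h) (by decide)
  have a12 : a 1 ≠ a 2 := fun h => absurd (ha h) (by decide)
  have hc : ({a 0, a 1, a 2} : Finset V).card = 3 := by
    rw [card_insert_of_notMem (by simp [a01, a02]), card_insert_of_notMem (by simp [a12]),
      card_singleton]
  have h3 := hp.odd {a 0, a 1, a 2} (subset_univ _) (by rw [hc]; decide)
  have h4 := cut_add_inner hp {a 0, a 1, a 2}
  have e : ∀ g : V → ℕ, ∑ y ∈ ({a 0, a 1, a 2} : Finset V), g y = g (a 0) + (g (a 1) + g (a 2)) := by
    intro g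
    rw [sum_insert (by simp [a01, a02]), sum_insert (by simp [a12]), sum_singleton]
  rw [e, e, e, e, hc, hp.loopless, hp.loopless, hp.loopless, hp.symm (a 1) (a 0),
    hp.symm (a 2) (a 0), hp.symm (a 2) (a 1)] at h4
  omega

theorem inn_le {r : ℕ} {p q : V → V → ℕ} (hp : RG r p univ) (hqs : ∀ x y, q x y = q y x)
    (hqp : ∀ x y, q x y ≤ p x y) {A : Finset V} (hA : Inters q A) : inn q A ≤ 2 * r := by
  have hl : ∀ x, q x x = 0 := fun x => Nat.le_zero.1 (hp.loopless x ▸ hqp x x)
  rcases classify hqs hl A hA with h1 | ⟨v, hv, h1⟩ | ⟨a, ha, haS, h1⟩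
  · unfold inn
    rw [sum_eq_zero fun x hx => sum_eq_zero fun y hy => h1 x hx y hy]
    exact Nat.zero_le _
  · rw [inn_star hqs hl hv h1]
    refine Nat.mul_le_mul_left 2 ?_
    rw [← hp.reg v (mem_univ v)]
    exact (sum_le_sum fun x _ => hqp v x).trans (sum_le_sum_of_subset (subset_univ _))
  · obtain ⟨h3, h4⟩ := inn_tri hqs hl ha haS h1
    have h5 := tri_le hp ha
    have h6 := hqp (a 0) (a 1)
    have h7 := hqp (a 0) (a 2)
    have h8 := hqp (a 1) (a 2)
    omega

/-- the case `|V - B| = |B| + 4` -/
theorem col_four {r : ℕ} {p : V → V → ℕ} (hr : 1 ≤ r) (hp : RG r p univ) {A B : Finset V}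
    (hd : Disjoint A B) (hall : ∀ x, x ∈ A ∨ x ∈ B) (hcard : A.card = B.card + 4)
    (hB : ∀ x ∈ B, ∀ y ∈ B, p x y = 0) (q1 q2 : V → V → ℕ)
    (t1 : ∀ x y, q1 x y = q1 y x) (t2 : ∀ x y, q2 x y = q2 y x)
    (hq : ∀ x y, p x y = q1 x y + q2 x y)
    (i1 : Inters q1 A) (i2 : Inters q2 A) : Col r p := by
  have hl : ∀ x, q1 x x = 0 := fun x => by have := hp.loopless x; have := hq x x; omega
  have hU : (univ : Finset V) = A ∪ B := by
    ext x
    simpa using hall x
  have htot := card_two (regOn hp) hd hU hB 4 hcard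
  have hinn : inn p A = inn q1 A + inn q2 A := by
    unfold inn
    rw [← sum_add_distrib]
    refine sum_congr rfl fun x _ => ?_
    rw [← sum_add_distrib]
    exact sum_congr rfl fun y _ => hq x y
  have b2 : inn q2 A ≤ 2 * r := inn_le hp t2 (fun x y => by have := hq x y; omega) i2
  rcases classify t1 hl A i1 with h1 | ⟨u, hu, h1⟩ | ⟨a, ha, haS, h1⟩
  · exfalso
    have h3 : inn q1 A = 0 := by
      unfold inn
      exact sum_eq_zero fun x hx => sum_eq_zero fun y hy => h1 x hx y hy
    omega
  · have huB : u ∉ B := fun h => disjoint_left.1 hd hu h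
    refine col_unbal hp (A := A.erase u) (B := insert u B) ?_ ?_ ?_ ?_
    · rw [disjoint_left]
      intro x hx hx'
      rw [mem_erase] at hx
      rw [mem_insert] at hx'
      rcases hx' with hx' | hx'
      · exact hx.1 hx'
      · exact disjoint_left.1 hd hx.2 hx'
    · intro x
      rw [mem_erase, mem_insert]
      rcases hall x with hx | hx
      · by_cases hxu : x = u
        · exact Or.inr (Or.inl hxu)
        · exact Or.inl ⟨hxu, hx⟩
      · exact Or.inr (Or.inr hx)
    · rw [card_insert_of_notMem huB, card_erase_of_mem hu]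
      omega
    · intro x hx y hy z hz w hw hxy hzw
      rw [mem_erase] at hx hy hz hw
      have k1 : q1 x y = 0 := by
        by_contra hne
        rcases h1 x hx.2 y hy.2 hne with h | h
        · exact hx.1 h
        · exact hy.1 h
      have k2 : q1 z w = 0 := by
        by_contra hne
        rcases h1 z hz.2 w hw.2 hne with h | h
        · exact hz.1 h
        · exact hw.1 h
      exact i2 x hx.2 y hy.2 z hz.2 w hw.2 (by have := hq x y; omega) (by have := hq z w; omega)
  · obtain ⟨h3, h4⟩ := inn_tri t1 hl ha haS h1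
    have h5 := tri_le hp ha
    have h6 := hq (a 0) (a 1)
    have h7 := hq (a 0) (a 2)
    have h8 := hq (a 1) (a 2)
    have hsum : p (a 0) (a 1) + p (a 0) (a 2) + p (a 1) (a 2) = r := by omega
    have a01 : a 0 ≠ a 1 := fun h => absurd (ha h) (by decide)
    have a02 : a 0 ≠ a 2 := fun h => absurd (ha h) (by decide)
    have a12 : a 1 ≠ a 2 := fun h => absurd (ha h) (by decide)
    have haB : ∀ j, a j ∉ B := fun j h' => disjoint_left.1 hd (haS j) h'
    have hreg := regOn hp
    refine expand hp.symm hp.loopless a ha (fun j => hp.reg _ (mem_univ _)) hsum ?_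
    refine col_reg_two (merge_reg hreg a ha (fun _ => mem_univ _) hsum) (A := A \ {a 1, a 2})
      (B := B) ?_ ?_ ?_ ?_ ?_
    · exact disjoint_of_subset_left sdiff_subset hd
    · rw [hU]
      ext x
      simp only [mem_sdiff, mem_union, mem_insert, mem_singleton, not_or]
      constructor
      · rintro ⟨h5 | h5, h6⟩
        · exact Or.inl ⟨h5, h6⟩
        · exact Or.inr h5
      · rintro (h5 | h5)
        · exact ⟨Or.inl h5.1, h5.2⟩
        · exact ⟨Or.inr h5, fun h6 => haB 1 (h6 ▸ h5), fun h6 => haB 2 (h6 ▸ h5)⟩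
    · intro x hx y hy
      rw [merge_out (fun j (h' : x = a j) => haB j (h' ▸ hx)) (fun j (h' : y = a j) => haB j (h' ▸ hy))]
      exact hB x hx y hy
    · have h9 : ({a 1, a 2} : Finset V) ⊆ A := by
        intro x hx
        rw [mem_insert, mem_singleton] at hx
        rcases hx with rfl | rfl
        · exact haS 1
        · exact haS 2
      rw [card_sdiff_of_subset h9, card_pair a12]
      omega
    · -- edges of the contraction come from edges of the second class
      have key : ∀ x ∈ A \ {a 1, a 2}, ∀ y ∈ A \ {a 1, a 2}, merge p a x y ≠ 0 →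
          ∃ x' ∈ A, ∃ y' ∈ A, q2 x' y' ≠ 0 ∧ (x' = x ∨ (x = a 0 ∧ ∃ j, x' = a j)) ∧
            (y' = y ∨ (y = a 0 ∧ ∃ j, y' = a j)) := by
        intro x hx y hy hne
        rw [mem_sdiff, mem_insert, mem_singleton, not_or] at hx hy
        have key2 : ∀ x' ∈ A, ∀ y' ∈ A, p x' y' ≠ 0 → ((∀ j, x' ≠ a j) ∨ ∀ j, y' ≠ a j) →
            q2 x' y' ≠ 0 := by
          intro x' hx' y' hy' h1' h2' h0
          have h3' : q1 x' y' ≠ 0 := by have := hq x' y'; omega
          obtain ⟨⟨j, hj⟩, ⟨j', hj'⟩⟩ := h1 x' hx' y' hy' h3'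
          rcases h2' with h | h
          · exact h j hj
          · exact h j' hj'
        by_cases hx0 : x = a 0
        · by_cases hy0 : y = a 0
          · exfalso
            apply hne
            unfold merge
            rw [if_neg, if_pos hx0, if_pos hy0]
            rintro ((h | h) | (h | h))
            · exact hx.2.1 h
            · exact hx.2.2 h
            · exact hy.2.1 h
            · exact hy.2.2 h
          · have hya : ∀ j, y ≠ a j := by
              intro j
              fin_cases j
              · exact hy0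
              · exact hy.2.1
              · exact hy.2.2
            rw [hx0, merge_a0 ha hya] at hne
            have : ∃ j, p (a j) y ≠ 0 := by
              by_contra hcon
              push Not at hcon
              exact hne (by rw [hcon 0, hcon 1, hcon 2])
            obtain ⟨j, hj⟩ := this
            exact ⟨a j, haS j, y, hy.1, key2 _ (haS j) _ hy.1 hj (Or.inr hya),
              Or.inr ⟨hx0, j, rfl⟩, Or.inl rfl⟩
        · have hxa : ∀ j, x ≠ a j := by
            intro j
            fin_cases j
            · exact hx0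
            · exact hx.2.1
            · exact hx.2.2
          by_cases hy0 : y = a 0
          · rw [hy0, merge_symm hp.symm, merge_a0 ha hxa] at hne
            have : ∃ j, p (a j) x ≠ 0 := by
              by_contra hcon
              push Not at hcon
              exact hne (by rw [hcon 0, hcon 1, hcon 2])
            obtain ⟨j, hj⟩ := this
            rw [hp.symm] at hj
            exact ⟨x, hx.1, a j, haS j, key2 _ hx.1 _ (haS j) hj (Or.inl hxa),
              Or.inl rfl, Or.inr ⟨hy0, j, rfl⟩⟩
          · have hya : ∀ j, y ≠ a j := by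
              intro j
              fin_cases j
              · exact hy0
              · exact hy.2.1
              · exact hy.2.2
            rw [merge_out hxa hya] at hne
            exact ⟨x, hx.1, y, hy.1, key2 _ hx.1 _ hy.1 hne (Or.inl hxa), Or.inl rfl, Or.inl rfl⟩
      -- equal preimages have equal images
      have im : ∀ x ∈ A \ {a 1, a 2}, ∀ z ∈ A \ {a 1, a 2}, ∀ x' z', x' = z' →
          (x' = x ∨ (x = a 0 ∧ ∃ j, x' = a j)) → (z' = z ∨ (z = a 0 ∧ ∃ j, z' = a j)) → x = z := by
        intro x hx z hz x' z' hxz hx' hz'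
        rw [mem_sdiff, mem_insert, mem_singleton, not_or] at hx hz
        have hsp : ∀ y, (y ≠ a 1 ∧ y ≠ a 2) → (∃ j, y = a j) → y = a 0 := by
          rintro y ⟨h1, h2⟩ ⟨j, hj⟩
          fin_cases j
          · exact hj
          · exact absurd hj h1
          · exact absurd hj h2
        rcases hx' with rfl | ⟨h1, h2⟩ <;> rcases hz' with rfl | ⟨h3, h4⟩
        · exact hxz
        · rw [h3]
          exact hsp _ hx.2 (by rw [hxz]; exact h4)
        · rw [h1]
          exact (hsp _ hz.2 (by rw [← hxz]; exact h2)).symm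
        · rw [h1, h3]
      intro x hx y hy z hz w hw hxy hzw
      obtain ⟨x', hx'A, y', hy'A, hn1, hx', hy'⟩ := key x hx y hy hxy
      obtain ⟨z', hz'A, w', hw'A, hn2, hz', hw'⟩ := key z hz w hw hzw
      rcases i2 x' hx'A y' hy'A z' hz'A w' hw'A hn1 hn2 with (h | h) | (h | h)
      · exact Or.inl (Or.inl (im x hx z hz x' z' h hx' hz'))
      · exact Or.inl (Or.inr (im x hx w hw x' w' h hx' hw'))
      · exact Or.inr (Or.inl (im y hy z hz y' z' h hy' hz'))
      · exact Or.inr (Or.inr (im y hy w hw y' w' h hy' hw'))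

end Pool.Agent.TH100.LV
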